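import Pool.Agent.H14.AVR.Stmts2

/-!
# AVR, module ST2: the asymptotic inequality for all nonsingular equations
-/

set_option autoImplicit false

namespace Pool.AVR

open Polynomial Matrix

namespace ST2

section Alg

variable {F : Type} [Field F]

theorem two_ne (h2 : (2 : F) ≠ 0) : (2 : RatFunc F) ≠ 0 := by
  intro h
  apply h2
  have : algebraMap F (RatFunc F) 2 = algebraMap F (RatFunc F) 0 := by
    rw [map_ofNat, map_zero, h]
  exact (algebraMap F (RatFunc F)).injective this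

theorem sep_iff (hD : DSCStmt) (h2 : (2 : F) ≠ 0) (f : F[X] × F[X] × F[X]) :
    (cubK f).Separable ↔ disc f.1 f.2.1 f.2.2 ≠ 0 := by
  have h := (hD (RatFunc F) (two_ne h2) (algebraMap F[X] (RatFunc F) f.1)
    (algebraMap F[X] (RatFunc F) f.2.1) (algebraMap F[X] (RatFunc F) f.2.2)).1
  have h3 : disc (algebraMap F[X] (RatFunc F) f.1) (algebraMap F[X] (RatFunc F) f.2.1)
      (algebraMap F[X] (RatFunc F) f.2.2) = algebraMap F[X] (RatFunc F)
        (disc f.1 f.2.1 f.2.2) := by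
    simp only [disc, map_add, map_sub, map_mul, map_pow, map_ofNat]
  rw [h3] at h
  unfold cubK
  rw [h, ne_eq, ne_eq, map_eq_zero_iff _ (RatFunc.algebraMap_injective F)]

theorem AA_map : (AA F[X]).map (algebraMap F[X] (RatFunc F)) = AA (RatFunc F) := by
  ext i j
  fin_cases i <;> fin_cases j <;> simp [AA]

theorem cubP_map (f : F[X] × F[X] × F[X]) :
    (cubP f).map (algebraMap F[X] (RatFunc F)) = cubK f := by
  simp [cubP, cubK, cub]

theorem map_inj : Function.Injective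
    (fun g : Matrix (Fin 3) (Fin 3) F[X] => g.map (algebraMap F[X] (RatFunc F))) := by
  intro g g' h
  ext1 i j
  have := congrFun (congrFun h i) j
  simp only [Matrix.map_apply] at this
  exact RatFunc.algebraMap_injective F this

theorem stab (hE : STEStmt) (h2 : (2 : F) ≠ 0) (B : Matrix (Fin 3) (Fin 3) F[X]) (hB : Bᵀ = B)
    (f : F[X] × F[X] × F[X]) (hf : (cubK f).Separable) (hc : (AA F[X] * B).charpoly = cubP f) :
    {g : Matrix (Fin 3) (Fin 3) F[X] | gᵀ * AA F[X] * g = AA F[X] ∧ gᵀ * B * g = B ∧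
      g.det = 1}.Finite ∧
    {g : Matrix (Fin 3) (Fin 3) F[X] | gᵀ * AA F[X] * g = AA F[X] ∧ gᵀ * B * g = B ∧
      g.det = 1}.ncard ≤ 8 := by
  set B' := B.map (algebraMap F[X] (RatFunc F)) with hB'
  have hT : B'ᵀ = B' := by
    rw [hB', ← Matrix.transpose_map, hB]
  have hch : (AA (RatFunc F) * B').charpoly = cubK f := by
    rw [hB', ← AA_map, ← Matrix.map_mul, Matrix.charpoly_map, hc, cubP_map]
  have h := hE (RatFunc F) (two_ne h2) B' hT (by rw [hch]; exact hf)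
  have hmaps : Set.MapsTo (fun g : Matrix (Fin 3) (Fin 3) F[X] =>
      g.map (algebraMap F[X] (RatFunc F)))
      {g : Matrix (Fin 3) (Fin 3) F[X] | gᵀ * AA F[X] * g = AA F[X] ∧ gᵀ * B * g = B ∧
        g.det = 1}
      {g : Matrix (Fin 3) (Fin 3) (RatFunc F) | gᵀ * AA (RatFunc F) * g = AA (RatFunc F) ∧
        gᵀ * B' * g = B' ∧ g.det = 1} := by
    rintro g ⟨h1, h3, h4⟩
    refine ⟨?_, ?_, ?_⟩
    · show (g.map (algebraMap F[X] (RatFunc F)))ᵀ * AA (RatFunc F) *
        g.map (algebraMap F[X] (RatFunc F)) = AA (RatFunc F)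
      rw [← AA_map, ← Matrix.transpose_map, ← Matrix.map_mul, ← Matrix.map_mul, h1]
    · show (g.map (algebraMap F[X] (RatFunc F)))ᵀ * B' *
        g.map (algebraMap F[X] (RatFunc F)) = B'
      rw [hB', ← Matrix.transpose_map, ← Matrix.map_mul, ← Matrix.map_mul, h3]
    · show (g.map (algebraMap F[X] (RatFunc F))).det = 1
      have := (RingHom.map_det (algebraMap F[X] (RatFunc F)) g)
      rw [h4, map_one] at this
      exact this.symm
  have hinj : Set.InjOn (fun g : Matrix (Fin 3) (Fin 3) F[X] =>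
      g.map (algebraMap F[X] (RatFunc F)))
      {g : Matrix (Fin 3) (Fin 3) F[X] | gᵀ * AA F[X] * g = AA F[X] ∧ gᵀ * B * g = B ∧
        g.det = 1} := map_inj.injOn
  exact ⟨Set.Finite.of_injOn hmaps hinj h.1,
    (Set.ncard_le_ncard_of_injOn _ hmaps hinj h.1).trans h.2⟩

end Alg

section Classes

variable {F : Type} [Field F]

open Classical in
/-- The nonzero classes with a representative of nonzero ordinate. -/
def XX (f : F[X] × F[X] × F[X]) : Set (Mod2 (EK f)) :=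
  {ξ : Mod2 (EK f) | ξ ≠ 0 ∧ ∃ (x y : RatFunc F)
      (h : (E (algebraMap F[X] (RatFunc F) f.1) (algebraMap F[X] (RatFunc F) f.2.1)
        (algebraMap F[X] (RatFunc F) f.2.2)).toAffine.Nonsingular x y), y ≠ 0 ∧
        QuotientAddGroup.mk (WeierstrassCurve.Affine.Point.some x y h) = ξ}

open Classical in
/-- A total version of the point of ordinate zero. -/
noncomputable def pt0 (f : F[X] × F[X] × F[X]) (x : RatFunc F) : EK f :=
  if h : (E (algebraMap F[X] (RatFunc F) f.1) (algebraMap F[X] (RatFunc F) f.2.1)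
        (algebraMap F[X] (RatFunc F) f.2.2)).toAffine.Nonsingular x 0 then
    WeierstrassCurve.Affine.Point.some x 0 h else 0

theorem cubK_ne (f : F[X] × F[X] × F[X]) : cubK f ≠ 0 := by
  intro h
  have := congrArg (fun p => p.coeff 3) h
  simp [cubK, cub, coeff_X_pow] at this

theorem cubK_deg (f : F[X] × F[X] × F[X]) : (cubK f).natDegree ≤ 3 := by
  unfold cubK cub
  compute_degree

open Classical in
theorem classes (f : F[X] × F[X] × F[X]) (hX : (XX f).Finite) :
    Finite (Mod2 (EK f)) ∧ Nat.card (Mod2 (EK f)) ≤ (XX f).ncard + 4 := by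
  set R : Set (RatFunc F) := ((cubK f).roots.toFinset : Set (RatFunc F)) with hR
  have hRfin : R.Finite := Finset.finite_toSet _
  have hRcard : R.ncard ≤ 3 := by
    rw [hR, Set.ncard_coe_finset]
    exact (Multiset.toFinset_card_le _).trans ((card_roots' _).trans (cubK_deg f))
  have hcov : (Set.univ : Set (Mod2 (EK f))) ⊆
      ({0} ∪ XX f) ∪ (fun x => (QuotientAddGroup.mk (pt0 f x) : Mod2 (EK f))) '' R := by
    intro ξ _
    obtain ⟨P, rfl⟩ := QuotientAddGroup.mk_surjective ξ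
    by_cases h0 : (QuotientAddGroup.mk P : Mod2 (EK f)) = 0
    · exact Or.inl (Or.inl h0)
    · cases P with
      | zero => exact absurd rfl h0
      | some x y h =>
        by_cases hy : y = 0
        · right
          subst hy
          refine ⟨x, ?_, ?_⟩
          · have h1 := h.1
            rw [WeierstrassCurve.Affine.equation_iff] at h1
            simp only [E] at h1
            rw [hR]
            simp only [Finset.mem_coe, Multiset.mem_toFinset]
            rw [mem_roots (cubK_ne f), IsRoot.def]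
            simp only [cubK, cub, eval_add, eval_mul, eval_pow, eval_X, eval_C]
            linear_combination -h1
          · simp only [pt0]
            rw [dif_pos h]
        · left
          right
          exact ⟨h0, x, y, h, hy, rfl⟩
  have hfin : (({0} ∪ XX f) ∪
      (fun x => (QuotientAddGroup.mk (pt0 f x) : Mod2 (EK f))) '' R).Finite :=
    ((Set.finite_singleton _).union hX).union (hRfin.image _)
  have huniv : (Set.univ : Set (Mod2 (EK f))).Finite := hfin.subset hcov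
  refine ⟨Set.finite_univ_iff.mp huniv, ?_⟩
  rw [← Set.ncard_univ]
  calc (Set.univ : Set (Mod2 (EK f))).ncard ≤ _ := Set.ncard_le_ncard hcov hfin
    _ ≤ ({0} ∪ XX f).ncard +
      ((fun x => (QuotientAddGroup.mk (pt0 f x) : Mod2 (EK f))) '' R).ncard :=
        Set.ncard_union_le _ _
    _ ≤ (({0} : Set (Mod2 (EK f))).ncard + (XX f).ncard) + R.ncard :=
        add_le_add (Set.ncard_union_le _ _) (Set.ncard_image_le hRfin)
    _ ≤ (1 + (XX f).ncard) + 3 := by
        rw [Set.ncard_singleton]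
        omega
    _ = (XX f).ncard + 4 := by ring

end Classes

section Num

theorem geom (x : ℝ) (h0 : 0 ≤ x) (h : 2 * x ≤ 1) (k : ℕ) :
    ∑ m ∈ Finset.range k, x ^ m ≤ 2 - 2 * x ^ k := by
  induction k with
  | zero => simp
  | succ k ih =>
    rw [Finset.sum_range_succ]
    have h1 : 0 ≤ x ^ k := pow_nonneg h0 k
    have h2 : x ^ (k + 1) = x ^ k * x := pow_succ x k
    nlinarith

theorem largeN (q ε : ℝ) (hq : 3 ≤ q) (hε : 0 < ε) (D : ℕ) :
    ∃ N : ℕ, 1 ≤ N ∧ ∀ n : ℕ, N ≤ n →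
      15 * q ^ (8 * n + 3) + 8 * (q ^ (12 * n + 6) * (D * (q ^ D / q ^ n))) ≤
        ε * q ^ (12 * n + 3) := by
  have hq0 : 0 < q := by linarith
  set A : ℝ := 15 + 8 * q ^ 3 * (D * q ^ D) with hA
  have hA0 : 0 < A := by positivity
  obtain ⟨N, hN⟩ := exists_pow_lt_of_lt_one (div_pos hε hA0) (show q⁻¹ < 1 from
    inv_lt_one_of_one_lt₀ (by linarith))
  refine ⟨N + 1, by omega, fun n hn => ?_⟩
  have hr : (q⁻¹) ^ n ≤ ε / A := by
    refine le_trans ?_ hN.le
    exact pow_le_pow_of_le_one (by positivity) (inv_le_one_of_one_le₀ (by linarith)) (by omega)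
  set r : ℝ := (q⁻¹) ^ n with hrdef
  have hr0 : 0 < r := by positivity
  have hr1 : r ≤ 1 := pow_le_one₀ (by positivity) (inv_le_one_of_one_le₀ (by linarith))
  set Q : ℝ := q ^ n with hQ
  have hQ0 : 0 < Q := by positivity
  have hrQ : r * Q = 1 := by
    rw [hrdef, hQ, ← mul_pow, inv_mul_cancel₀ hq0.ne', one_pow]
  have hAr : A * r ≤ ε := by
    rw [mul_comm]
    exact (le_div_iff₀ hA0).mp hr
  have e1 : q ^ (8 * n + 3) = Q ^ 8 * q ^ 3 := by rw [pow_add, hQ, ← pow_mul, mul_comm n 8]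
  have e2 : q ^ (12 * n + 3) = Q ^ 12 * q ^ 3 := by rw [pow_add, hQ, ← pow_mul, mul_comm n 12]
  have e3 : q ^ (12 * n + 6) = Q ^ 12 * q ^ 6 := by rw [pow_add, hQ, ← pow_mul, mul_comm n 12]
  have e4 : q ^ D / Q = q ^ D * r := by
    rw [div_eq_mul_inv, ← eq_inv_of_mul_eq_one_left hrQ]
  rw [e1, e2, e3, e4]
  have e5 : Q ^ 8 = Q ^ 12 * r ^ 4 := by
    have : r ^ 4 * Q ^ 4 = 1 := by rw [← mul_pow, hrQ, one_pow]
    calc Q ^ 8 = Q ^ 8 * 1 := by ring
      _ = Q ^ 8 * (r ^ 4 * Q ^ 4) := by rw [this]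
      _ = Q ^ 12 * r ^ 4 := by ring
  have hr4 : r ^ 4 ≤ r := by
    calc r ^ 4 = r ^ 3 * r := by ring
      _ ≤ 1 * r := by
        apply mul_le_mul_of_nonneg_right (pow_le_one₀ hr0.le hr1) hr0.le
      _ = r := one_mul r
  have key : 15 * r ^ 4 + 8 * q ^ 3 * (D * q ^ D) * r ≤ ε := by
    calc 15 * r ^ 4 + 8 * q ^ 3 * (D * q ^ D) * r ≤ 15 * r + 8 * q ^ 3 * (D * q ^ D) * r := by
          gcongr
      _ = A * r := by rw [hA]; ring
      _ ≤ ε := hAr
  rw [e5]
  calc 15 * (Q ^ 12 * r ^ 4 * q ^ 3) + 8 * (Q ^ 12 * q ^ 6 * (D * (q ^ D * r)))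
      = (15 * r ^ 4 + 8 * q ^ 3 * (D * q ^ D) * r) * (Q ^ 12 * q ^ 3) := by ring
    _ ≤ ε * (Q ^ 12 * q ^ 3) := by
        apply mul_le_mul_of_nonneg_right key
        positivity

/-- The sum over the instability degree. -/
theorem sumM (q ε : ℝ) (hq : 3 ≤ q) (hε : 0 < ε) (D n : ℕ) (a g : ℕ → ℝ)
    (ha0 : ∀ m, 0 ≤ a m) (ha1 : ∀ m, m ≤ n → a m ≤ q ^ (12 * n + 6))
    (ha2 : ∀ m, m + D ≤ n → a m ≤ ε * q ^ (12 * n + 6)) (hg : ∀ m, q ^ m ≤ g m) :
    ∑ m ∈ Finset.range (n + 1), a m / g m ≤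
      q ^ (12 * n + 6) * (2 * ε + D * (q ^ D / q ^ n)) := by
  have hq0 : 0 < q := by linarith
  set T : ℝ := q ^ (12 * n + 6) with hT
  have hT0 : 0 < T := by positivity
  have hterm : ∀ m ∈ Finset.range (n + 1), a m / g m ≤
      T * (ε * (q⁻¹) ^ m) + T * (if n < m + D then q ^ D / q ^ n else 0) := by
    intro m hm
    have hmn : m ≤ n := by
      have := Finset.mem_range.mp hm
      omega
    have hqm : 0 < q ^ m := by positivity
    have h1 : a m / g m ≤ a m / q ^ m :=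
      div_le_div_of_nonneg_left (ha0 m) hqm (hg m)
    by_cases hD : n < m + D
    · rw [if_pos hD]
      have h2 : a m / q ^ m ≤ T * (q ^ D / q ^ n) := by
        rw [div_le_iff₀ hqm]
        have h3 : 1 ≤ q ^ D / q ^ n * q ^ m := by
          rw [div_mul_eq_mul_div, le_div_iff₀ (by positivity), one_mul, ← pow_add]
          exact pow_le_pow_right₀ (by linarith) (by omega)
        calc a m ≤ T * 1 := by rw [mul_one]; exact ha1 m hmn
          _ ≤ T * (q ^ D / q ^ n * q ^ m) := by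
            apply mul_le_mul_of_nonneg_left h3 hT0.le
          _ = T * (q ^ D / q ^ n) * q ^ m := by ring
      have h4 : 0 ≤ T * (ε * (q⁻¹) ^ m) := by positivity
      linarith
    · rw [if_neg hD, mul_zero, add_zero]
      have h2 : a m / q ^ m ≤ T * (ε * (q⁻¹) ^ m) := by
        rw [div_le_iff₀ hqm]
        have h3 : (q⁻¹) ^ m * q ^ m = 1 := by
          rw [← mul_pow, inv_mul_cancel₀ hq0.ne', one_pow]
        calc a m ≤ ε * T := ha2 m (by omega)
          _ = T * ε * ((q⁻¹) ^ m * q ^ m) := by rw [h3]; ring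
          _ = T * (ε * (q⁻¹) ^ m) * q ^ m := by ring
      linarith
  refine (Finset.sum_le_sum hterm).trans ?_
  rw [Finset.sum_add_distrib, ← Finset.mul_sum, ← Finset.mul_sum, ← Finset.mul_sum, ← mul_add]
  apply mul_le_mul_of_nonneg_left _ hT0.le
  have hgeo : ∑ m ∈ Finset.range (n + 1), (q⁻¹) ^ m ≤ 2 := by
    have h2x : 2 * q⁻¹ ≤ 1 := by
      rw [← div_eq_mul_inv, div_le_one hq0]
      linarith
    have := geom q⁻¹ (by positivity) h2x (n + 1)
    have h3 : 0 ≤ (q⁻¹) ^ (n + 1) := by positivity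
    linarith
  have hcard : ∑ m ∈ Finset.range (n + 1), (if n < m + D then q ^ D / q ^ n else 0) ≤
      D * (q ^ D / q ^ n) := by
    rw [← Finset.sum_filter, Finset.sum_const, nsmul_eq_mul]
    apply mul_le_mul_of_nonneg_right _ (by positivity)
    have hsub : (Finset.range (n + 1)).filter (fun m => n < m + D) ⊆
        Finset.Ico (n + 1 - D) (n + 1) := by
      intro m hm
      rw [Finset.mem_filter, Finset.mem_range] at hm
      rw [Finset.mem_Ico]
      omega
    have := Finset.card_le_card hsub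
    rw [Nat.card_Ico] at this
    exact_mod_cast this.trans (by omega)
  have h5 : ε * ∑ m ∈ Finset.range (n + 1), (q⁻¹) ^ m ≤ 2 * ε := by nlinarith
  linarith

theorem cc_eq (q : ℝ) (hq : 3 ≤ q) :
    (1 - 1 / q) * (1 - 1 / q ^ 2) = (q - 1) ^ 2 * (q + 1) / q ^ 3 := by
  have hq0 : 0 < q := by linarith
  field_simp
  ring

theorem cc_le (q : ℝ) (hq : 3 ≤ q) : 2 / ((1 - 1 / q) * (1 - 1 / q ^ 2)) ≤ 7 / 2 := by
  have hq0 : 0 < q := by linarith
  have hqm1 : 0 < q - 1 := by linarith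
  have h11 : (0 : ℝ) < (q - 1) ^ 2 * (q + 1) / q ^ 3 := by positivity
  rw [cc_eq q hq, div_le_iff₀ h11, ← mul_div_assoc, le_div_iff₀ (by positivity)]
  obtain ⟨t, ht⟩ : ∃ t, q = 3 + t := ⟨q - 3, by ring⟩
  have ht0 : 0 ≤ t := by linarith
  subst ht
  nlinarith [mul_nonneg ht0 ht0, mul_nonneg (mul_nonneg ht0 ht0) ht0]

theorem final_ineq (q ε : ℝ) (hq : 3 ≤ q) (hε : 0 < ε) (n : ℕ) (hn : 1 ≤ n)
    (DD I R SI SR SX : ℝ) (hR : R ≤ 2 * q ^ (8 * n + 3)) (hR0 : 0 ≤ R)
    (hI : q ^ (12 * n + 3) ≤ I + 2 * q ^ (8 * n + 3))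
    (hSI : SI ≤ q ^ (12 * n + 6) * (2 / ((q - 1) ^ 2 * (q + 1))) + I)
    (hSR : SR ≤ SX + 4 * R)
    (hSX : SX ≤ 8 * (q ^ (12 * n + 6) * (2 * (ε / (64 * q ^ 3)) + DD)))
    (hN : 15 * q ^ (8 * n + 3) + 8 * (q ^ (12 * n + 6) * DD) ≤ ε / 4 * q ^ (12 * n + 3)) :
    SI + SR ≤ (1 + 2 / ((1 - 1 / q) * (1 - 1 / q ^ 2)) + ε) * (I + R) := by
  have hq0 : 0 < q := by linarith
  have hqm1 : 0 < q - 1 := by linarith
  have hcle := cc_le q hq
  have hc0 : 0 ≤ 2 / ((1 - 1 / q) * (1 - 1 / q ^ 2)) := by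
    rw [cc_eq q hq]
    positivity
  have hcc : q ^ (12 * n + 6) * (2 / ((q - 1) ^ 2 * (q + 1))) =
      2 / ((1 - 1 / q) * (1 - 1 / q ^ 2)) * q ^ (12 * n + 3) := by
    have hpow : q ^ (12 * n + 6) = q ^ (12 * n + 3) * q ^ 3 := by
      rw [← pow_add]
    rw [hpow, cc_eq q hq]
    field_simp
  have hδT : q ^ (12 * n + 6) * (2 * (ε / (64 * q ^ 3)) + DD) =
      ε / 32 * q ^ (12 * n + 3) + q ^ (12 * n + 6) * DD := by
    have hpow : q ^ (12 * n + 6) = q ^ (12 * n + 3) * q ^ 3 := by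
      rw [← pow_add]
    rw [hpow]
    field_simp
    ring
  have h12 : 4 * q ^ (8 * n + 3) ≤ q ^ (12 * n + 3) := by
    have h13 : q ^ (12 * n + 3) = q ^ (8 * n + 3) * q ^ (4 * n) := by
      rw [← pow_add, show 12 * n + 3 = 8 * n + 3 + 4 * n by omega]
    have h14 : 4 ≤ q ^ (4 * n) := by
      calc (4 : ℝ) ≤ q ^ 2 := by nlinarith
        _ ≤ q ^ (4 * n) := pow_le_pow_right₀ (by linarith) (by omega)
    have hP0 : 0 < q ^ (8 * n + 3) := by positivity
    rw [h13]
    nlinarith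
  rw [hcc] at hSI
  rw [hδT] at hSX
  have hP0 : 0 < q ^ (8 * n + 3) := by positivity
  generalize 2 / ((1 - 1 / q) * (1 - 1 / q ^ 2)) = c at *
  generalize q ^ (8 * n + 3) = P at *
  generalize q ^ (12 * n + 3) = T at *
  generalize q ^ (12 * n + 6) * DD = V at *
  have h1 : c * T ≤ c * (I + R) + 7 * P := by
    have h15 : c * T ≤ c * (I + R + 2 * P) := mul_le_mul_of_nonneg_left (by linarith) hc0
    have h16 : c * (2 * P) ≤ 7 / 2 * (2 * P) := mul_le_mul_of_nonneg_right hcle (by linarith)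
    have h17 : c * (I + R + 2 * P) = c * (I + R) + c * (2 * P) := by ring
    linarith
  have h2 : ε / 2 * T ≤ ε * (I + R) := by
    have h18 : ε * (T / 2) ≤ ε * (I + R) := mul_le_mul_of_nonneg_left (by linarith) hε.le
    linarith
  have h3 : (1 + c + ε) * (I + R) = (I + R) + c * (I + R) + ε * (I + R) := by ring
  rw [h3]
  linarith

end Num

section Main

variable (F : Type) [Field F]

/-- The nonsingular equations with a rational point of order two. -/
def Rd (n : ℕ) : Set (F[X] × F[X] × F[X]) :=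
  {f ∈ Fam F n | (cubK f).Separable ∧ ¬ Irreducible (cubK f)}

variable {F}

theorem Ell_eq (hD : DSCStmt) (h2 : (2 : F) ≠ 0) (n : ℕ) : Ell F n = Irr F n ∪ Rd F n := by
  ext f
  constructor
  · rintro ⟨h1, h3⟩
    rw [← sep_iff hD h2] at h3
    by_cases h : Irreducible (cubK f)
    · exact Or.inl ⟨h1, h, h3⟩
    · exact Or.inr ⟨h1, h3, h⟩
  · rintro (⟨h1, _, h3⟩ | ⟨h1, h3, _⟩)
    · exact ⟨h1, (sep_iff hD h2 f).mp h3⟩
    · exact ⟨h1, (sep_iff hD h2 f).mp h3⟩

theorem disj (n : ℕ) : Disjoint (Irr F n) (Rd F n) := by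
  rw [Set.disjoint_left]
  rintro f ⟨_, h, _⟩ ⟨_, _, h'⟩
  exact h' h

theorem three_le [Finite F] (h2 : (2 : F) ≠ 0) : 3 ≤ Nat.card F := by
  classical
  have := Fintype.ofFinite F
  rw [Nat.card_eq_fintype_card]
  have h : ({0, 1, 2} : Finset F).card ≤ Fintype.card F := Finset.card_le_univ _
  have h12 : (1 : F) ≠ 2 := by
    intro h
    apply one_ne_zero (α := F)
    linear_combination -h
  have h02 : (0 : F) ≠ 2 := fun h => h2 h.symm
  rw [Finset.card_eq_three.mpr ⟨0, 1, 2, zero_ne_one, h02, h12, rfl⟩] at h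
  exact h

theorem GG_ge (hG : GRPStmt) [Finite F] (h2 : (2 : F) ≠ 0) (m : ℕ) :
    (Nat.card F : ℝ) ^ m ≤ ((GG F m).ncard : ℝ) := by
  have h3 := three_le h2
  obtain ⟨_, h0, h1⟩ := hG F h2
  have key : Nat.card F ^ m ≤ (GG F m).ncard := by
    rcases Nat.eq_zero_or_pos m with rfl | hm
    · refine le_trans ?_ h0
      rw [pow_zero]
      have : Nat.card F * 3 ≤ Nat.card F ^ 3 := by
        calc Nat.card F * 3 ≤ Nat.card F * (Nat.card F ^ 2) := by
              apply Nat.mul_le_mul_left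
              nlinarith
          _ = Nat.card F ^ 3 := by ring
      omega
    · refine le_trans ?_ (h1 m hm)
      calc Nat.card F ^ m = 1 * Nat.card F ^ m := (one_mul _).symm
        _ ≤ (Nat.card F - 1) * Nat.card F ^ (m + 1) := by
            apply Nat.mul_le_mul (by omega)
            exact Nat.pow_le_pow_right (by omega) (by omega)
  exact_mod_cast key

open Classical in
theorem st2_thm (hST1 : ST1Stmt) (hFIN : FINStmt) (hSTE : STEStmt) (hRED : REDStmt)
    (hGRP : GRPStmt) (hCNB : CNBStmt) (hCNF : CNFStmt) (hDSC : DSCStmt) : ST2Stmt := by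
  intro F _ _ h2 ε hε
  have h3 := three_le h2
  set q : ℝ := (Nat.card F : ℝ) with hqdef
  have hq : 3 ≤ q := by
    rw [hqdef]
    exact_mod_cast h3
  have hq0 : 0 < q := by linarith
  have hq1 : 1 ≤ q := by linarith
  set δ : ℝ := ε / (64 * q ^ 3) with hδ
  have hδ0 : 0 < δ := by positivity
  obtain ⟨D, hDR⟩ := hRED F h2 δ hδ0
  obtain ⟨N, hN1, hN⟩ := largeN q (ε / 4) hq (by positivity) D
  refine ⟨N, fun n hn => ?_⟩
  have hn1 : 1 ≤ n := hN1.trans hn
  obtain ⟨hFamfin, hFamcard, hBad⟩ := hCNF F h2 n hn1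
  obtain ⟨hIfin, hI2, hIsum⟩ := hST1 F h2 n hn1
  have hRsub : Rd F n ⊆ Fam F n := fun f hf => hf.1
  have hRfin : (Rd F n).Finite := hFamfin.subset hRsub
  -- the stabiliser bound
  have hstab : ∀ B : Matrix (Fin 3) (Fin 3) F[X], Bᵀ = B →
      (∃ f ∈ Rd F n, (AA F[X] * B).charpoly = cubP f) →
      {g : Matrix (Fin 3) (Fin 3) F[X] | gᵀ * AA F[X] * g = AA F[X] ∧ gᵀ * B * g = B ∧
        g.det = 1}.Finite ∧
      {g : Matrix (Fin 3) (Fin 3) F[X] | gᵀ * AA F[X] * g = AA F[X] ∧ gᵀ * B * g = B ∧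
        g.det = 1}.ncard ≤ 8 := by
    rintro B hB ⟨f, hf, hc⟩
    exact stab hSTE h2 B hB f hf.2.1 hc
  obtain ⟨hXfin, hXsum⟩ := hFIN F h2 n 8 (Rd F n) hRsub (fun f hf => hf.2.1) hstab
  have hXfin' : ∀ f ∈ Rd F n, (XX f).Finite := hXfin
  have hcl : ∀ f ∈ Rd F n, Finite (Mod2 (EK f)) ∧
      Nat.card (Mod2 (EK f)) ≤ (XX f).ncard + 4 := fun f hf => classes f (hXfin' f hf)
  have hEll := Ell_eq hDSC h2 n
  have hEfin : (Ell F n).Finite := by
    rw [hEll]
    exact hIfin.union hRfin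
  refine ⟨hEfin, ?_, ?_⟩
  · intro f hf
    rw [hEll] at hf
    rcases hf with hf | hf
    · exact hI2 f hf
    · exact (hcl f hf).1
  -- the sums
  have hXsum' : ∑ᶠ f ∈ Rd F n, ((XX f).ncard : ℝ) ≤
      (8 : ℕ) * ∑ m ∈ Finset.range (n + 1),
        ({B : Matrix (Fin 3) (Fin 3) F[X] | Bd n m B ∧
          ∃ f ∈ Rd F n, (AA F[X] * B).charpoly = cubP f}.ncard : ℝ) / (GG F m).ncard := hXsum
  have hcardE : ((Ell F n).ncard : ℝ) = (Irr F n).ncard + (Rd F n).ncard := by
    rw [hEll, Set.ncard_union_eq (disj n) hIfin hRfin]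
    push_cast
    rfl
  have hRcard : ((Rd F n).ncard : ℝ) ≤ 2 * q ^ (8 * n + 3) := by
    have hsub : Rd F n ⊆ {f ∈ Fam F n | ¬ (Irreducible (cubK f) ∧ (cubK f).Separable)} :=
      fun f hf => ⟨hf.1, fun h => hf.2.2 h.1⟩
    have h5 := (Set.ncard_le_ncard hsub (hFamfin.subset (fun f hf => hf.1))).trans hBad
    rw [hqdef]
    exact_mod_cast h5
  have hIcard : q ^ (12 * n + 3) ≤ (Irr F n).ncard + 2 * q ^ (8 * n + 3) := by
    have hsub : Fam F n ⊆ Irr F n ∪
        {f ∈ Fam F n | ¬ (Irreducible (cubK f) ∧ (cubK f).Separable)} := by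
      intro f hf
      by_cases h : Irreducible (cubK f) ∧ (cubK f).Separable
      · exact Or.inl ⟨hf, h.1, h.2⟩
      · exact Or.inr ⟨hf, h⟩
    have h5 := (Set.ncard_le_ncard hsub (hIfin.union (hFamfin.subset (fun f hf => hf.1)))).trans
      (Set.ncard_union_le _ _)
    rw [hFamcard] at h5
    have h6 := h5.trans (Nat.add_le_add_left hBad _)
    rw [hqdef]
    exact_mod_cast h6
  have hEcard : q ^ (12 * n + 3) ≤ (Ell F n).ncard + 2 * q ^ (8 * n + 3) := by
    rw [hcardE]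
    have : (0 : ℝ) ≤ (Rd F n).ncard := Nat.cast_nonneg _
    linarith
  -- the part with irreducible cubic
  have hsumI : ∑ᶠ f ∈ Irr F n, (Nat.card (Mod2 (EK f)) : ℝ) ≤
      q ^ (12 * n + 6) * (2 / ((q - 1) ^ 2 * (q + 1))) + (Irr F n).ncard := by
    rw [finsum_mem_eq_finite_toFinset_sum _ hIfin] at hIsum ⊢
    rw [Finset.sum_sub_distrib, Finset.sum_const, nsmul_eq_mul, mul_one] at hIsum
    rw [Set.ncard_eq_toFinset_card _ hIfin]
    linarith
  -- the part with reducible cubic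
  have hsumR1 : ∑ᶠ f ∈ Rd F n, (Nat.card (Mod2 (EK f)) : ℝ) ≤
      ∑ᶠ f ∈ Rd F n, ((XX f).ncard : ℝ) + 4 * (Rd F n).ncard := by
    rw [finsum_mem_eq_finite_toFinset_sum _ hRfin, finsum_mem_eq_finite_toFinset_sum _ hRfin,
      Set.ncard_eq_toFinset_card _ hRfin]
    have h7 : ∀ f ∈ hRfin.toFinset, (Nat.card (Mod2 (EK f)) : ℝ) ≤ (XX f).ncard + 4 := by
      intro f hf
      exact_mod_cast (hcl f ((Set.Finite.mem_toFinset _).mp hf)).2
    refine (Finset.sum_le_sum h7).trans ?_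
    rw [Finset.sum_add_distrib, Finset.sum_const, nsmul_eq_mul]
    linarith
  have hBsum : ∑ m ∈ Finset.range (n + 1),
        ({B : Matrix (Fin 3) (Fin 3) F[X] | Bd n m B ∧
          ∃ f ∈ Rd F n, (AA F[X] * B).charpoly = cubP f}.ncard : ℝ) / (GG F m).ncard ≤
      q ^ (12 * n + 6) * (2 * δ + D * (q ^ D / q ^ n)) := by
    apply sumM q δ hq hδ0 D n
      (fun m => ({B : Matrix (Fin 3) (Fin 3) F[X] | Bd n m B ∧
          ∃ f ∈ Rd F n, (AA F[X] * B).charpoly = cubP f}.ncard : ℝ))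
      (fun m => ((GG F m).ncard : ℝ))
    · intro m
      positivity
    · intro m hm
      obtain ⟨hf, hc⟩ := hCNB F n m hm
      have h8 : {B : Matrix (Fin 3) (Fin 3) F[X] | Bd n m B ∧
          ∃ f ∈ Rd F n, (AA F[X] * B).charpoly = cubP f}.ncard ≤ Nat.card F ^ (12 * n + 6) :=
        (Set.ncard_le_ncard (fun B hB => hB.1) hf).trans hc
      rw [hqdef]
      exact_mod_cast h8
    · intro m hm
      obtain ⟨hf, _⟩ := hCNB F n m (by omega)
      refine le_trans ?_ (hDR n m hm)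
      have h9 : {B : Matrix (Fin 3) (Fin 3) F[X] | Bd n m B ∧
          ∃ f ∈ Rd F n, (AA F[X] * B).charpoly = cubP f} ⊆
          {B : Matrix (Fin 3) (Fin 3) F[X] | Bd n m B ∧ ∃ f ∈ Fam F n,
            ¬ Irreducible (cubK f) ∧ (AA F[X] * B).charpoly = cubP f} := by
        rintro B ⟨hB, f, hf', hc⟩
        exact ⟨hB, f, hf'.1, hf'.2.2, hc⟩
      exact_mod_cast Set.ncard_le_ncard h9 (hf.subset (fun B hB => hB.1))
    · intro m
      exact GG_ge hGRP h2 m
  have hsum : ∑ᶠ f ∈ Ell F n, (Nat.card (Mod2 (EK f)) : ℝ) =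
      ∑ᶠ f ∈ Irr F n, (Nat.card (Mod2 (EK f)) : ℝ) +
        ∑ᶠ f ∈ Rd F n, (Nat.card (Mod2 (EK f)) : ℝ) := by
    rw [hEll]
    exact finsum_mem_union (disj n) hIfin hRfin
  have hNn := hN n hn
  rw [hsum, hcardE]
  exact final_ineq q ε hq hε n hn1 (D * (q ^ D / q ^ n)) _ _ _ _ _ hRcard (Nat.cast_nonneg _)
    hIcard hsumI hsumR1 (by
      refine hXsum'.trans ?_
      push_cast
      linarith) hNn

end Main

end ST2

end Pool.AVR
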